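import Pool.Agent.Helper53.KC.Goals

/-!
# Packet KC LOC: the neighbours of a non-base
-/

set_option autoImplicit false

namespace Pool.Agent.Helper87.KC

open Finset Pool.Agent.Helper53.KC

variable {n : ℕ}

theorem coe_sw (X : Finset (Fin n)) (e f : Fin n) :
    ((sw X e f : Finset (Fin n)) : Set (Fin n)) = insert f ((X : Set (Fin n)) \ {e}) := by
  unfold sw
  rw [coe_insert, coe_erase]

theorem insert_diff {X : Finset (Fin n)} {e : Fin n} (he : e ∈ X) :
    insert e ((X : Set (Fin n)) \ {e}) = (X : Set (Fin n)) := by
  ext x
  simp only [Set.mem_insert_iff, Set.mem_sdiff, Set.mem_singleton_iff]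
  constructor
  · rintro (h | h)
    · rw [h]
      exact he
    · exact h.1
  · intro h
    by_cases hx : x = e
    · exact Or.inl hx
    · exact Or.inr ⟨h, hx⟩

/-- The circuit and the hyperplane of a non-base with an independent neighbour. -/
theorem core {r : ℕ} {M : Matroid (Fin n)} (hE : M.E = Set.univ) (hr : M.eRank = (r : ℕ∞))
    {X : Finset (Fin n)} (hXc : X.card = r) (hXd : ¬ M.Indep (X : Set (Fin n))) {e0 f0 : Fin n}
    (he0 : e0 ∈ X) (hf0 : f0 ∉ X) (h0 : M.Indep (insert f0 ((X : Set (Fin n)) \ {e0}))) :
    ∃ C H : Set (Fin n), C ⊆ X ∧ M.IsCircuit C ∧ (∀ C', M.IsCircuit C' → C' ⊆ X → C' = C) ∧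
      (X : Set (Fin n)) ⊆ H ∧ H = M.closure X ∧ M.IsCocircuit Hᶜ ∧
      (∀ e ∈ X, ∀ f, f ∉ X →
        (M.Indep (insert f ((X : Set (Fin n)) \ {e})) ↔ e ∈ C ∧ f ∉ H)) ∧
      f0 ∉ H ∧ e0 ∈ C := by
  have hground : ∀ S : Set (Fin n), S ⊆ M.E := fun S => by
    rw [hE]
    exact Set.subset_univ S
  have hJ : M.Indep ((X : Set (Fin n)) \ {e0}) := h0.subset (Set.subset_insert _ _)
  have hins := insert_diff he0
  have hdep : M.Dep (X : Set (Fin n)) := ⟨hXd, hground _⟩
  have hecl : e0 ∈ M.closure ((X : Set (Fin n)) \ {e0}) := by
    rw [hJ.mem_closure_iff, hins]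
    exact Or.inl hdep
  have henot : e0 ∉ (X : Set (Fin n)) \ {e0} := by simp
  have hC := hJ.fundCircuit_isCircuit hecl henot
  have hCX : M.fundCircuit e0 ((X : Set (Fin n)) \ {e0}) ⊆ (X : Set (Fin n)) := by
    have := M.fundCircuit_subset_insert e0 ((X : Set (Fin n)) \ {e0})
    rwa [hins] at this
  have huniq : ∀ C', M.IsCircuit C' → C' ⊆ (X : Set (Fin n)) →
      C' = M.fundCircuit e0 ((X : Set (Fin n)) \ {e0}) := by
    intro C' hC' hC'X
    apply hC'.eq_fundCircuit_of_subset hJ
    rwa [hins]
  have hmem : ∀ e, e ∈ M.fundCircuit e0 ((X : Set (Fin n)) \ {e0}) ↔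
      M.Indep ((X : Set (Fin n)) \ {e}) := by
    intro e
    rw [hJ.mem_fundCircuit_iff hecl henot, hins]
  have hclJ : M.closure ((X : Set (Fin n)) \ {e0}) = M.closure X := by
    conv_rhs => rw [← hins]
    exact (Matroid.closure_insert_eq_of_mem_closure hecl).symm
  have hf0' : f0 ∉ (X : Set (Fin n)) \ {e0} := fun h => hf0 h.1
  have hf0H : f0 ∉ M.closure (X : Set (Fin n)) := by
    rw [← hclJ]
    exact (hJ.notMem_closure_iff_of_notMem hf0' (by rw [hE]; trivial)).2 h0
  -- the base
  have hbase : M.IsBase (insert f0 ((X : Set (Fin n)) \ {e0})) := by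
    apply h0.isBase_of_eRk_ge (Set.toFinite _)
    rw [hr, h0.eRk_eq_encard, Set.encard_insert_of_notMem hf0']
    have h1 : ((X : Set (Fin n)) \ {e0}).encard + 1 = (X : Set (Fin n)).encard :=
      Set.encard_sdiff_singleton_add_one he0
    rw [h1, Set.encard_coe_eq_coe_finsetCard, hXc]
  have hcoc : M.IsCocircuit (M.closure (X : Set (Fin n)))ᶜ := by
    have h1 := hbase.compl_closure_sdiff_singleton_isCocircuit (Set.mem_insert f0 _)
    have h2 : insert f0 ((X : Set (Fin n)) \ {e0}) \ {f0} = (X : Set (Fin n)) \ {e0} := by
      ext x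
      simp only [Set.mem_sdiff, Set.mem_insert_iff, Set.mem_singleton_iff]
      constructor
      · rintro ⟨h | h, h'⟩
        · exact absurd h h'
        · exact h
      · intro h
        refine ⟨Or.inr h, ?_⟩
        rintro rfl
        exact hf0 h.1
    rw [h2, hclJ, hE] at h1
    rwa [Set.compl_eq_univ_sdiff]
  refine ⟨M.fundCircuit e0 ((X : Set (Fin n)) \ {e0}), M.closure X, hCX, hC, huniq,
    M.subset_closure _ (hground _), rfl, hcoc, ?_, hf0H, M.mem_fundCircuit _ _⟩
  intro e he f hf
  have hf' : f ∉ (X : Set (Fin n)) \ {e} := fun h => hf h.1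
  have hinse := insert_diff he
  constructor
  · intro hI
    have hIe : M.Indep ((X : Set (Fin n)) \ {e}) := hI.subset (Set.subset_insert _ _)
    refine ⟨(hmem e).2 hIe, ?_⟩
    have hcle : e ∈ M.closure ((X : Set (Fin n)) \ {e}) := by
      rw [hIe.mem_closure_iff, hinse]
      exact Or.inl hdep
    have hcl : M.closure ((X : Set (Fin n)) \ {e}) = M.closure X := by
      conv_rhs => rw [← hinse]
      exact (Matroid.closure_insert_eq_of_mem_closure hcle).symm
    rw [← hcl]
    exact (hIe.notMem_closure_iff_of_notMem hf' (by rw [hE]; trivial)).2 hI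
  · rintro ⟨h1, h2⟩
    have hIe := (hmem e).1 h1
    have hcle : e ∈ M.closure ((X : Set (Fin n)) \ {e}) := by
      rw [hIe.mem_closure_iff, hinse]
      exact Or.inl hdep
    have hcl : M.closure ((X : Set (Fin n)) \ {e}) = M.closure X := by
      conv_rhs => rw [← hinse]
      exact (Matroid.closure_insert_eq_of_mem_closure hcle).symm
    rw [← hcl] at h2
    exact (hIe.notMem_closure_iff_of_notMem hf' (by rw [hE]; trivial)).1 h2

theorem loc : LocStmt := by
  classical
  intro n r t M hRk X hX
  obtain ⟨hE, hr⟩ := hRk
  have hXc : X.card = r := by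
    unfold NB at hX
    rw [mem_filter] at hX
    exact (mem_powersetCard.1 hX.1).2
  have hXd : ¬ M.Indep (X : Set (Fin n)) := by
    unfold NB at hX
    rw [mem_filter] at hX
    exact hX.2
  have memQ : ∀ e, e ∈ Qe M X ↔ e ∈ X ∧ ∀ f ∉ X, ¬ M.Indep (sw X e f : Set (Fin n)) := by
    intro e
    unfold Qe
    rw [mem_filter]
  have memP : ∀ f, f ∈ Pf M X ↔ f ∉ X ∧ ∀ e ∈ X, ¬ M.Indep (sw X e f : Set (Fin n)) := by
    intro f
    unfold Pf
    rw [mem_filter]
    exact ⟨fun h => h.2, fun h => ⟨mem_univ _, h⟩⟩
  by_cases hflag : flag M X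
  · refine ⟨?_, fun h => absurd hflag h⟩
    intro e he f hf
    exact ⟨fun _ => Or.inl ((memQ e).2 ⟨he, fun f hf => hflag e he f hf⟩),
      fun _ => hflag e he f hf⟩
  · have hnf := hflag
    unfold flag at hnf
    push Not at hnf
    obtain ⟨e0, he0, f0, hf0, h0⟩ := hnf
    rw [coe_sw] at h0
    obtain ⟨C, H, hCX, hC, huniq, hXH, hHcl, hcoc, hkey, hf0H, he0C⟩ :=
      core hE hr hXc hXd he0 hf0 h0
    have hQ : ∀ e, e ∈ Qe M X ↔ e ∈ X ∧ e ∉ C := by
      intro e
      rw [memQ]
      constructor
      · rintro ⟨he, h⟩
        refine ⟨he, fun heC => h f0 hf0 ?_⟩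
        rw [coe_sw]
        exact (hkey e he f0 hf0).2 ⟨heC, hf0H⟩
      · rintro ⟨he, heC⟩
        refine ⟨he, fun f hf h => ?_⟩
        rw [coe_sw] at h
        exact heC ((hkey e he f hf).1 h).1
    have hP : ∀ f, f ∈ Pf M X ↔ f ∉ X ∧ f ∈ H := by
      intro f
      rw [memP]
      constructor
      · rintro ⟨hf, h⟩
        refine ⟨hf, ?_⟩
        by_contra hfH
        apply h e0 he0
        rw [coe_sw]
        exact (hkey e0 he0 f hf).2 ⟨he0C, hfH⟩
      · rintro ⟨hf, hfH⟩
        refine ⟨hf, fun e he h => ?_⟩
        rw [coe_sw] at h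
        exact ((hkey e he f hf).1 h).2 hfH
    refine ⟨?_, fun _ => ⟨?_, ?_, ?_, ?_⟩⟩
    · intro e he f hf
      rw [hQ, hP, coe_sw, hkey e he f hf]
      constructor
      · intro h
        by_cases heC : e ∈ C
        · right
          refine ⟨hf, ?_⟩
          by_contra hfH
          exact h ⟨heC, hfH⟩
        · exact Or.inl ⟨he, heC⟩
      · rintro (h | h) ⟨h1, h2⟩
        · exact h.2 h1
        · exact h2 h.2
    · intro ht
      set Hf : Finset (Fin n) := univ.filter (fun x => x ∈ H) with hHf
      have hHfc : (Hf : Set (Fin n)) = H := by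
        ext x
        simp [hHf]
      refine ⟨Hf, ?_, ?_⟩
      · unfold thH
        rw [mem_filter]
        refine ⟨mem_univ _, ?_, ?_⟩
        · rw [coe_compl, hHfc]
          exact hcoc
        · have hdis : Disjoint X (Pf M X) := by
            rw [disjoint_left]
            intro x hx hx'
            exact ((hP x).1 hx').1 hx
          have hsub : X ∪ Pf M X ⊆ Hf := by
            intro x hx
            rw [hHf, mem_filter]
            refine ⟨mem_univ _, ?_⟩
            rcases mem_union.1 hx with h | h
            · exact hXH h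
            · exact ((hP x).1 h).2
          have := card_le_card hsub
          rw [card_union_of_disjoint hdis, hXc] at this
          omega
      · intro x hx
        rw [hHf, mem_filter]
        exact ⟨mem_univ _, hXH hx⟩
    · intro H' hH' hXH'
      unfold thH at hH'
      rw [mem_filter] at hH'
      have hcoc' := hH'.2.1
      rw [Matroid.isCocircuit_iff_minimal_compl_nonspanning, hE, coe_compl] at hcoc'
      have hnsp : ¬ M.Spanning (H' : Set (Fin n)) := by
        have h1 := hcoc'.prop
        have e1 : Set.univ \ (H' : Set (Fin n))ᶜ = (H' : Set (Fin n)) := by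
          ext y
          simp
        rwa [e1] at h1
      -- `H' = H`
      have hH'H : ∀ x, x ∈ H' ↔ x ∈ H := by
        intro x
        constructor
        · intro hx
          by_contra hxH
          have hxX : x ∉ X := fun h => hxH (hXH h)
          have hI := (hkey e0 he0 x hxX).2 ⟨he0C, hxH⟩
          apply hnsp
          have hbase : M.IsBase (insert x ((X : Set (Fin n)) \ {e0})) := by
            apply hI.isBase_of_eRk_ge (Set.toFinite _)
            rw [hr, hI.eRk_eq_encard, Set.encard_insert_of_notMem (fun h => hxX h.1)]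
            have h1 : ((X : Set (Fin n)) \ {e0}).encard + 1 = (X : Set (Fin n)).encard :=
              Set.encard_sdiff_singleton_add_one he0
            rw [h1, Set.encard_coe_eq_coe_finsetCard, hXc]
          apply hbase.spanning.superset _ (by rw [hE]; exact Set.subset_univ _)
          intro y hy
          rcases hy with rfl | hy
          · exact hx
          · exact hXH' hy.1
        · intro hx
          by_contra hxH'
          have hsp : M.Spanning (insert x (H' : Set (Fin n))) := by
            by_contra hns
            have hns' : ¬ M.Spanning (Set.univ \ ((H' : Set (Fin n))ᶜ \ {x})) := by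
              have e1 : Set.univ \ ((H' : Set (Fin n))ᶜ \ {x}) = insert x (H' : Set (Fin n)) := by
                ext y
                simp only [Set.mem_sdiff, Set.mem_univ, Set.mem_compl_iff, Set.mem_singleton_iff,
                  true_and, Set.mem_insert_iff]
                tauto
              rwa [e1]
            have hle := hcoc'.2 hns' (show (H' : Set (Fin n))ᶜ \ {x} ≤ (H' : Set (Fin n))ᶜ from
              Set.sdiff_subset)
            have : x ∈ (H' : Set (Fin n))ᶜ \ {x} := hle hxH'
            exact this.2 rfl
          have hsub : insert x (H' : Set (Fin n)) ⊆ H := by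
            intro y hy
            rcases hy with rfl | hy
            · exact hx
            · by_contra hyH
              have hyX : y ∉ X := fun h => hyH (hXH h)
              have hI := (hkey e0 he0 y hyX).2 ⟨he0C, hyH⟩
              apply hnsp
              have hbase : M.IsBase (insert y ((X : Set (Fin n)) \ {e0})) := by
                apply hI.isBase_of_eRk_ge (Set.toFinite _)
                rw [hr, hI.eRk_eq_encard, Set.encard_insert_of_notMem (fun h => hyX h.1)]
                have h1 : ((X : Set (Fin n)) \ {e0}).encard + 1 = (X : Set (Fin n)).encard :=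
                  Set.encard_sdiff_singleton_add_one he0
                rw [h1, Set.encard_coe_eq_coe_finsetCard, hXc]
              apply hbase.spanning.superset _ (by rw [hE]; exact Set.subset_univ _)
              intro z hz
              rcases hz with rfl | hz
              · exact hy
              · exact hXH' hz.1
          have hspH : M.Spanning H := hsp.superset hsub (by rw [hE]; exact Set.subset_univ _)
          have hclH : M.closure H = M.E := hspH.closure_eq
          have hclH2 : M.closure H = H := by
            rw [hHcl]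
            exact M.closure_closure _
          rw [hclH2, hE] at hclH
          apply hf0H
          rw [hclH]
          trivial
      ext x
      rw [hP, mem_sdiff, hH'H]
      tauto
    · intro ht
      set Cf : Finset (Fin n) := univ.filter (fun x => x ∈ C) with hCf
      have hCfc : (Cf : Set (Fin n)) = C := by
        ext x
        simp [hCf]
      have hCfX : Cf ⊆ X := by
        intro x hx
        rw [hCf, mem_filter] at hx
        exact hCX hx.2
      refine ⟨Cf, ?_, hCfX⟩
      unfold thC
      rw [mem_filter]
      refine ⟨mem_univ _, ?_, ?_⟩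
      · rw [hCfc]
        exact hC
      · have hdis : Disjoint Cf (Qe M X) := by
          rw [disjoint_left]
          intro x hx hx'
          rw [hCf, mem_filter] at hx
          exact ((hQ x).1 hx').2 hx.2
        have hsub : Cf ∪ Qe M X ⊆ X := by
          intro x hx
          rcases mem_union.1 hx with h | h
          · exact hCfX h
          · exact ((hQ x).1 h).1
        have := card_le_card hsub
        rw [card_union_of_disjoint hdis, hXc] at this
        omega
    · intro C' hC' hC'X
      unfold thC at hC'
      rw [mem_filter] at hC'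
      have heq : (C' : Set (Fin n)) = C := huniq _ hC'.2.1 (by exact_mod_cast hC'X)
      ext x
      rw [hQ, mem_sdiff, ← heq, mem_coe]

end Pool.Agent.Helper87.KC
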